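import Pool.Agent.LE.StmtsQD

/-!
Row BKT of squad LQD: the kernel of `e^{i t Δ}` on the torus, integrated over a dyadic block.
-/

set_option autoImplicit false

open MeasureTheory ProbabilityTheory Function Filter

open scoped ENNReal BigOperators Topology NNReal ComplexOrder Matrix

noncomputable section

namespace Pool.Agent.LE.QD.H46

open Pool.Agent.Anderson hiding box mem_box card_box
open Pool.Agent.Loc Pool.Agent.Mob Pool.Agent.Helper54.Bal
  Pool.Agent.Helper96.EXP Pool.Agent.BED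
open Pool.Agent.LE.MN Pool.Agent.LE.CL Pool.Agent.LE.IR

lemma es_eq {d M : ℕ} [NeZero M] (p : Tor d M) :
    es p = ∑ i, 2 * Real.cos (2 * Real.pi * ((p i).valMinAbs : ℝ) / M) := by
  unfold es ds
  have : ∀ i : Fin d, 2 * (1 - Real.cos (2 * Real.pi * ((p i).valMinAbs : ℝ) / M))
      = 2 - 2 * Real.cos (2 * Real.pi * ((p i).valMinAbs : ℝ) / M) := fun i => by ring
  simp_rw [this]
  rw [Finset.sum_sub_distrib, Finset.sum_const, Finset.card_univ, Fintype.card_fin, nsmul_eq_mul]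
  ring

lemma kernel_eq {d M : ℕ} [NeZero M] (t : ℝ) (y : Tor d M) :
    (∑ p, ec p y * Complex.exp (Complex.I * ((t * es p : ℝ) : ℂ))) / (M : ℂ) ^ d
      = ∏ i, jt M t (y i) := by
  have h1 : ∀ p : Tor d M, ec p y * Complex.exp (Complex.I * ((t * es p : ℝ) : ℂ))
      = ∏ i, (ZMod.stdAddChar (p i * y i) *
        Complex.exp (Complex.I * ((2 * t * Real.cos (2 * Real.pi * ((p i).valMinAbs : ℝ) / M)
          : ℝ) : ℂ))) := by
    intro p
    rw [Finset.prod_mul_distrib, ← Complex.exp_sum]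
    unfold ec
    congr 2
    rw [es_eq, Finset.mul_sum, Complex.ofReal_sum, Finset.mul_sum]
    refine Finset.sum_congr rfl fun i _ => ?_
    congr 2
    ring
  simp_rw [h1]
  unfold jt
  rw [Finset.prod_div_distrib, Finset.prod_const, Finset.card_univ, Fintype.card_fin]
  congr 1
  rw [Finset.prod_univ_sum, Fintype.piFinset_univ]

lemma norm_jt_le (M : ℕ) [NeZero M] (t : ℝ) (n : ZMod M) : ‖jt M t n‖ ≤ 1 := by
  unfold jt
  have hM : (0:ℝ) < M := by exact_mod_cast Nat.pos_of_ne_zero (NeZero.ne M)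
  rw [norm_div, Complex.norm_natCast, div_le_one hM]
  refine (norm_sum_le _ _).trans ?_
  have h : ∀ p : ZMod M, ‖(ZMod.stdAddChar (p * n) : ℂ) *
      Complex.exp (Complex.I * ((2 * t * Real.cos (2 * Real.pi * (p.valMinAbs : ℝ) / M) : ℝ) : ℂ))‖
      = 1 := by
    intro p
    rw [norm_mul, AddChar.norm_apply, one_mul, mul_comm Complex.I, Complex.norm_exp_ofReal_mul_I]
  simp_rw [h]
  rw [Finset.sum_const, Finset.card_univ, ZMod.card, nsmul_eq_mul, mul_one]

lemma continuous_jt (M : ℕ) [NeZero M] (n : ZMod M) : Continuous fun t : ℝ => jt M t n := by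
  unfold jt
  fun_prop

lemma continuous_jb (n : ℤ) : Continuous fun t : ℝ => jb t n := by
  unfold jb
  apply Continuous.div_const
  apply intervalIntegral.continuous_parametric_intervalIntegral_of_continuous'
  fun_prop

lemma prod_le_three {d : ℕ} (hd : 3 ≤ d) (a : Fin d → ℝ) (h0 : ∀ i, 0 ≤ a i)
    (h1 : ∀ i, a i ≤ 1) :
    ∏ i, a i ≤ ∑ i : Fin d, if (i : ℕ) < 3 then a i ^ 3 else 0 := by
  set i0 : Fin d := ⟨0, by omega⟩
  set i1 : Fin d := ⟨1, by omega⟩
  set i2 : Fin d := ⟨2, by omega⟩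
  have hS : ({i0, i1, i2} : Finset (Fin d)) ⊆ Finset.univ := Finset.subset_univ _
  have h01 : i0 ≠ i1 := by simp [i0, i1]
  have h02 : i0 ≠ i2 := by simp [i0, i2]
  have h12 : i1 ≠ i2 := by simp [i1, i2]
  have e1 : ∏ i ∈ ({i0, i1, i2} : Finset (Fin d)), a i = a i0 * (a i1 * a i2) := by
    rw [Finset.prod_insert (by simp [h01, h02]), Finset.prod_insert (by simp [h12]),
      Finset.prod_singleton]
  have e2 : ∏ i, a i ≤ ∏ i ∈ ({i0, i1, i2} : Finset (Fin d)), a i := by
    rw [← Finset.prod_sdiff hS]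
    have h3 : ∏ i ∈ Finset.univ \ ({i0, i1, i2} : Finset (Fin d)), a i ≤ 1 :=
      Finset.prod_le_one (fun i _ => h0 i) (fun i _ => h1 i)
    have h4 : 0 ≤ ∏ i ∈ ({i0, i1, i2} : Finset (Fin d)), a i :=
      Finset.prod_nonneg fun i _ => h0 i
    nlinarith
  have e3 : ∑ i ∈ ({i0, i1, i2} : Finset (Fin d)), a i ^ 3
      ≤ ∑ i : Fin d, if (i : ℕ) < 3 then a i ^ 3 else 0 := by
    rw [← Finset.sum_filter]
    apply Finset.sum_le_sum_of_subset_of_nonneg
    · intro i hi
      simp only [Finset.mem_insert, Finset.mem_singleton] at hi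
      simp only [Finset.mem_filter, Finset.mem_univ, true_and]
      rcases hi with rfl | rfl | rfl <;> simp [i0, i1, i2]
    · intro i _ _
      exact pow_nonneg (h0 i) 3
  have e4 : ∑ i ∈ ({i0, i1, i2} : Finset (Fin d)), a i ^ 3 = a i0 ^ 3 + (a i1 ^ 3 + a i2 ^ 3) := by
    rw [Finset.sum_insert (by simp [h01, h02]), Finset.sum_insert (by simp [h12]),
      Finset.sum_singleton]
  have e5 : a i0 * (a i1 * a i2) ≤ a i0 ^ 3 + (a i1 ^ 3 + a i2 ^ 3) := by
    have ha := h0 i0
    have hb := h0 i1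
    have hc := h0 i2
    nlinarith [mul_nonneg (add_nonneg (add_nonneg ha hb) hc) (sq_nonneg (a i0 - a i1)),
      mul_nonneg (add_nonneg (add_nonneg ha hb) hc) (sq_nonneg (a i1 - a i2)),
      mul_nonneg (add_nonneg (add_nonneg ha hb) hc) (sq_nonneg (a i0 - a i2)),
      mul_nonneg ha (mul_nonneg hb hc)]
  linarith

lemma exp_small {T : ℝ} (hT : 1 ≤ T) : Real.exp (-(20 * T)) ≤ T ^ (-(1 / 3 : ℝ)) ∧
    T * Real.exp (-(40 * T)) ≤ 1 := by
  have h1 : T ≤ Real.exp T := by have := Real.add_one_le_exp T; linarith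
  have h2 : 0 < Real.exp T := Real.exp_pos T
  constructor
  · have h3 : Real.exp (-(20 * T)) ≤ Real.exp (-T) := Real.exp_le_exp.mpr (by linarith)
    have h4 : Real.exp (-T) ≤ T⁻¹ := by
      rw [Real.exp_neg]
      exact inv_anti₀ (by linarith) h1
    have h5 : T⁻¹ ≤ T ^ (-(1 / 3 : ℝ)) := by
      rw [← Real.rpow_neg_one]
      exact Real.rpow_le_rpow_of_exponent_le hT (by norm_num)
    linarith
  · have h3 : Real.exp (-(40 * T)) ≤ Real.exp (-T) := Real.exp_le_exp.mpr (by linarith)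
    have h4 : T * Real.exp (-(40 * T)) ≤ Real.exp T * Real.exp (-T) := by
      apply mul_le_mul h1 h3 (Real.exp_pos _).le h2.le
    rwa [← Real.exp_add, add_neg_cancel, Real.exp_zero] at h4

theorem bkt (hBES : BesStmt) (hBE2 : Be2Stmt) (hTOR : TorStmt) : BktStmt := by
  intro d hd
  obtain ⟨C1, hC1, hb1⟩ := hBES
  obtain ⟨C2, hC2, hb2⟩ := hBE2
  refine ⟨3 * ((C1 + 8) * (2 * C2 + 256)), by nlinarith, ?_⟩
  intro M _ T y hT hTM
  have hTpos : 0 < T := by linarith
  set r : ℝ := T ^ (-(1 / 3 : ℝ)) with hr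
  have hr0 : 0 ≤ r := Real.rpow_nonneg hTpos.le _
  obtain ⟨hx1, hx2⟩ := exp_small hT
  have hlogT : 0 ≤ Real.log T := Real.log_nonneg hT
  -- pointwise bound of `jt`
  have hexp : Real.exp (-((M : ℝ) / 4)) ≤ Real.exp (-(20 * T)) :=
    Real.exp_le_exp.mpr (by linarith)
  have hdiff : ∀ (t : ℝ) (n : ZMod M), |t| ≤ 2 * T →
      ‖jt M t n‖ ≤ ‖jb t n.valMinAbs‖ + 8 * Real.exp (-(20 * T)) := by
    intro t n ht
    have h1 := hTOR M t n (ht.trans hTM)
    have h2 : ‖jt M t n‖ ≤ ‖jt M t n - jb t n.valMinAbs‖ + ‖jb t n.valMinAbs‖ := by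
      have := norm_add_le (jt M t n - jb t n.valMinAbs) (jb t n.valMinAbs)
      simpa using this
    linarith
  have hsup : ∀ (t : ℝ) (n : ZMod M), T ≤ |t| → |t| ≤ 2 * T → ‖jt M t n‖ ≤ (C1 + 8) * r := by
    intro t n ht1 ht2
    have h1 := hdiff t n ht2
    have h2 := hb1 t n.valMinAbs (hT.trans ht1)
    have h3 : |t| ^ (-(1 / 3 : ℝ)) ≤ r :=
      Real.rpow_le_rpow_of_nonpos hTpos ht1 (by norm_num)
    have h4 : C1 * |t| ^ (-(1 / 3 : ℝ)) ≤ C1 * r := mul_le_mul_of_nonneg_left h3 (by linarith)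
    linarith
  have hsq : ∀ (t : ℝ) (n : ZMod M), |t| ≤ 2 * T →
      ‖jt M t n‖ ^ 2 ≤ 2 * ‖jb t n.valMinAbs‖ ^ 2 + 128 * Real.exp (-(40 * T)) := by
    intro t n ht2
    have h1 := hdiff t n ht2
    have h2 : ‖jt M t n‖ ^ 2 ≤ (‖jb t n.valMinAbs‖ + 8 * Real.exp (-(20 * T))) ^ 2 :=
      pow_le_pow_left₀ (norm_nonneg _) h1 2
    have h3 : Real.exp (-(40 * T)) = Real.exp (-(20 * T)) * Real.exp (-(20 * T)) := by
      rw [← Real.exp_add]; ring_nf
    rw [h3]
    nlinarith [sq_nonneg (‖jb t n.valMinAbs‖ - 8 * Real.exp (-(20 * T)))]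
  have hcube : ∀ (t : ℝ) (n : ZMod M), T ≤ |t| → |t| ≤ 2 * T →
      ‖jt M t n‖ ^ 3 ≤ (C1 + 8) * r * (2 * ‖jb t n.valMinAbs‖ ^ 2
        + 128 * Real.exp (-(40 * T))) := by
    intro t n ht1 ht2
    have e : ‖jt M t n‖ ^ 3 = ‖jt M t n‖ * ‖jt M t n‖ ^ 2 := by ring
    rw [e]
    exact mul_le_mul (hsup t n ht1 ht2) (hsq t n ht2) (by positivity)
      (mul_nonneg (by linarith) hr0)
  -- the kernel
  have hneg : ∀ t : ℝ, (∑ p, ec p y * Complex.exp (-(Complex.I * ((t * es p : ℝ) : ℂ))))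
      / (M : ℂ) ^ d = ∏ i, jt M (-t) (y i) := by
    intro t
    rw [← kernel_eq]
    congr 1
    refine Finset.sum_congr rfl fun p _ => ?_
    congr 2
    push_cast
    ring
  have hker : ∀ t : ℝ, ‖∏ i, jt M t (y i)‖ ≤ ∑ i : Fin d, if (i : ℕ) < 3
      then ‖jt M t (y i)‖ ^ 3 else 0 := by
    intro t
    rw [norm_prod]
    exact prod_le_three hd _ (fun i => norm_nonneg _) (fun i => norm_jt_le M t (y i))
  set g : ℝ → ℝ := fun t => ∑ i : Fin d, if (i : ℕ) < 3 then
    (C1 + 8) * r * (2 * (‖jb t (y i).valMinAbs‖ ^ 2 + ‖jb (-t) (y i).valMinAbs‖ ^ 2)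
      + 256 * Real.exp (-(40 * T))) else 0 with hg
  have hjc : ∀ n : ℤ, Continuous fun t : ℝ => ‖jb t n‖ ^ 2 + ‖jb (-t) n‖ ^ 2 := by
    intro n
    have h1 := continuous_jb n
    have h2 : Continuous fun t : ℝ => jb (-t) n := h1.comp continuous_neg
    exact (h1.norm.pow 2).add (h2.norm.pow 2)
  have hterm : ∀ i : Fin d, Continuous fun t : ℝ => (if (i : ℕ) < 3 then
    (C1 + 8) * r * (2 * (‖jb t (y i).valMinAbs‖ ^ 2 + ‖jb (-t) (y i).valMinAbs‖ ^ 2)
      + 256 * Real.exp (-(40 * T))) else 0) := by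
    intro i
    split_ifs
    · exact ((((hjc _).const_mul 2)).add continuous_const).const_mul _
    · exact continuous_const
  have hgc : Continuous g := continuous_finsetSum _ fun i _ => hterm i
  have hfc : Continuous fun t : ℝ => ‖∏ i, jt M t (y i)‖ + ‖∏ i, jt M (-t) (y i)‖ := by
    have h1 : Continuous fun t : ℝ => ∏ i, jt M t (y i) :=
      continuous_finsetProd _ fun i _ => continuous_jt M (y i)
    exact h1.norm.add (h1.comp continuous_neg).norm
  have hle : ∀ t ∈ Set.Icc T (2 * T),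
      ‖∏ i, jt M t (y i)‖ + ‖∏ i, jt M (-t) (y i)‖ ≤ g t := by
    intro t ht
    have habs : |t| = t := abs_of_nonneg (by linarith [ht.1])
    have habs' : |(-t)| = t := by rw [abs_neg, habs]
    refine (add_le_add (hker t) (hker (-t))).trans ?_
    rw [← Finset.sum_add_distrib, hg]
    apply Finset.sum_le_sum
    intro i _
    by_cases hi : (i : ℕ) < 3
    · simp only [if_pos hi]
      have h1 := hcube t (y i) (by rw [habs]; exact ht.1) (by rw [habs]; exact ht.2)
      have h2 := hcube (-t) (y i) (by rw [habs']; exact ht.1) (by rw [habs']; exact ht.2)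
      calc _ ≤ _ := add_le_add h1 h2
        _ = _ := by ring
    · simp only [if_neg hi]
      norm_num
  have hint : ∫ t in T..2 * T, (‖∏ i, jt M t (y i)‖ + ‖∏ i, jt M (-t) (y i)‖)
      ≤ ∫ t in T..2 * T, g t :=
    intervalIntegral.integral_mono_on (by linarith) (hfc.intervalIntegrable _ _)
      (hgc.intervalIntegrable _ _) hle
  set X : ℝ := (C1 + 8) * r * ((2 * C2 + 256) * (1 + Real.log T)) with hX
  have hX0 : 0 ≤ X := by
    have : 0 ≤ 1 + Real.log T := by linarith
    positivity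
  have hgint : ∫ t in T..2 * T, g t ≤ ∑ i : Fin d, if (i : ℕ) < 3 then X else 0 := by
    rw [hg, intervalIntegral.integral_finsetSum fun i _ => (hterm i).intervalIntegrable _ _]
    apply Finset.sum_le_sum
    intro i _
    by_cases hi : (i : ℕ) < 3
    · simp only [if_pos hi]
      rw [intervalIntegral.integral_const_mul, intervalIntegral.integral_add
        (((hjc _).const_mul 2).intervalIntegrable _ _) (continuous_const.intervalIntegrable _ _),
        intervalIntegral.integral_const_mul, intervalIntegral.integral_const, smul_eq_mul]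
      have h1 := hb2 T (y i).valMinAbs hT
      rw [hX]
      apply mul_le_mul_of_nonneg_left _ (mul_nonneg (by linarith) hr0)
      have h2 : (2 * T - T) * (256 * Real.exp (-(40 * T))) ≤ 256 := by nlinarith
      nlinarith
    · simp only [if_neg hi]
      simp
  have hcard : ((Finset.univ.filter fun i : Fin d => (i : ℕ) < 3).card : ℝ) ≤ 3 := by
    have h1 : (Finset.univ.filter fun i : Fin d => (i : ℕ) < 3).card ≤ (Finset.range 3).card := by
      apply Finset.card_le_card_of_injOn (fun i : Fin d => (i : ℕ))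
      · intro i hi
        simp only [Finset.coe_filter, Finset.mem_univ, true_and, Set.mem_ofPred_eq] at hi
        simpa using hi
      · intro i _ j _ h
        exact Fin.ext h
    rw [Finset.card_range] at h1
    exact_mod_cast h1
  have hsum : ∑ i : Fin d, (if (i : ℕ) < 3 then X else 0) ≤ 3 * X := by
    rw [← Finset.sum_filter, Finset.sum_const, nsmul_eq_mul]
    exact mul_le_mul_of_nonneg_right hcard hX0
  have hfin : ∫ t in T..2 * T,
      (‖(∑ p, ec p y * Complex.exp (Complex.I * ((t * es p : ℝ) : ℂ))) / (M : ℂ) ^ d‖ +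
        ‖(∑ p, ec p y * Complex.exp (-(Complex.I * ((t * es p : ℝ) : ℂ)))) / (M : ℂ) ^ d‖)
      = ∫ t in T..2 * T, (‖∏ i, jt M t (y i)‖ + ‖∏ i, jt M (-t) (y i)‖) := by
    apply intervalIntegral.integral_congr
    intro t _
    simp only [kernel_eq, hneg]
  rw [hfin]
  calc _ ≤ 3 * X := hint.trans (hgint.trans hsum)
    _ = _ := by rw [hX]; ring

end Pool.Agent.LE.QD.H46
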